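import Pool.Agent.Helper93.TCU.Stmts
import Pool.Agent.Helper93.TCU.Bas
import Pool.Agent.Helper3.TCS.Mean
import Pool.Agent.Helper3.TCT.Defs

/-!
# C3 (helper38)
-/

set_option autoImplicit false

namespace Pool.TCU

open Pool.TC Pool.TCM Pool.TCS Finset
open scoped Classical

section

variable {V κ : Type} [Fintype V] [Fintype κ]

private theorem c3_cs (S : CS V κ) (U : Finset V) (L : V → Finset κ) (T : V → κ → ℝ) (v : V) :
    cs S U L T v = ∑ w ∈ U, ∑ b ∈ L w, if S.r w b = v then T w b else 0 := by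
  unfold cs Cv
  rw [sum_filter, Fintype.sum_prod_type, ← univ_inter U, ← sum_ite_mem, univ_inter]
  refine sum_congr rfl fun w _ => ?_
  by_cases hw : w ∈ U
  · rw [if_pos hw, ← univ_inter (L w), ← sum_ite_mem]
    refine sum_congr rfl fun b _ => ?_
    show (if w ∈ U ∧ b ∈ L w ∧ S.r w b = v then T w b else 0) = _
    by_cases hb : b ∈ L w
    · rw [if_pos hb]
      by_cases hr : S.r w b = v
      · rw [if_pos hr, if_pos ⟨hw, hb, hr⟩]
      · rw [if_neg hr, if_neg (fun h => hr h.2.2)]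
    · rw [if_neg hb, if_neg (fun h => hb h.2.1)]
  · rw [if_neg hw]
    exact sum_eq_zero fun b _ => if_neg (fun h => hw h.1)

private theorem c3_card (S : CS V κ) (U : Finset V) (L : V → Finset κ) (v : V) :
    ((Cv S U L v).card : ℝ) = ∑ w ∈ U, ∑ b ∈ L w, if S.r w b = v then (1 : ℝ) else 0 := by
  rw [← c3_cs S U L (fun _ _ => 1) v]
  unfold cs
  simp

private theorem c3_swap (S : CS V κ) (U : Finset V) (L : V → Finset κ) (h : V → ℝ) :
    ∑ w ∈ U, ∑ b ∈ L w, h (S.r w b) = ∑ v, ((Cv S U L v).card : ℝ) * h v := by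
  have h1 : ∀ v, ((Cv S U L v).card : ℝ) * h v =
      ∑ w ∈ U, ∑ b ∈ L w, if S.r w b = v then h v else 0 := by
    intro v
    rw [c3_card, sum_mul]
    refine sum_congr rfl fun w _ => ?_
    rw [sum_mul]
    refine sum_congr rfl fun b _ => ?_
    rw [ite_mul, one_mul, zero_mul]
  rw [sum_congr rfl fun v _ => h1 v, sum_comm]
  refine sum_congr rfl fun w _ => ?_
  rw [sum_comm]
  refine sum_congr rfl fun b _ => ?_
  rw [sum_ite_eq, if_pos (mem_univ _)]

omit [Fintype V] [Fintype κ] in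
private theorem c3_enu {U : Finset V} {L : V → Finset κ} {l : ℕ} {e : V → Fin l → κ}
    (he : Enu U L l e) {w : V} (hw : w ∈ U) (f : κ → ℝ) :
    ∑ i, f (e w i) = ∑ b ∈ L w, f b := by
  refine sum_bij (fun i _ => e w i) ?_ ?_ ?_ ?_
  · intro i _
    exact (he.mem w hw _).2 ⟨i, rfl⟩
  · intro i _ j _ h
    exact he.inj w hw h
  · intro b hb
    obtain ⟨i, hi⟩ := (he.mem w hw b).1 hb
    exact ⟨i, mem_univ _, hi⟩
  · intro i _
    rfl

private theorem c3_coord {T A : Type} [Fintype T] [Fintype A] [Nonempty A] (f : T → A → ℝ) :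
    mean (fun ω : T → A => ∑ t, f t (ω t)) = (∑ t, ∑ a, f t a) / Fintype.card A := by
  have h1 : mean (fun ω : T → A => ∑ t, f t (ω t)) = ∑ t, mean (fun ω : T → A => f t (ω t)) :=
    Mean_sum univ (fun (t : T) (ω : T → A) => f t (ω t))
  rw [h1, sum_div]
  refine sum_congr rfl fun t _ => ?_
  have h := Mean_prod_on (A := A) {t} f
  simp only [prod_singleton] at h
  exact h

private theorem c3_lin {Ω : Type} [Fintype Ω] (h : 0 < (Fintype.card Ω : ℝ)) (A : ℝ) (f : Ω → ℝ) :
    mean (fun ω => A + f ω) = A + mean f := by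
  unfold mean
  rw [Finset.sum_add_distrib, Finset.sum_const, Finset.card_univ, nsmul_eq_mul]
  generalize (∑ ω, f ω) = s
  field_simp

private theorem c3_smul {Ω : Type} [Fintype Ω] (A : ℝ) (f : Ω → ℝ) :
    mean (fun ω => A * f ω) = A * mean f := by
  unfold mean
  rw [← Finset.mul_sum, mul_div_assoc]

/-- the weight of an option in the sum -/
private noncomputable def gw (S : CS V κ) (U : Finset V) (L : V → Finset κ) (l m K : ℕ) (x : ℝ)
    (q : V → κ → ℝ) (T : V → κ → ℝ) (w : V) (b : κ) : ℝ :=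
  T w b * ((1 - bet m K) * (1 - eR S U L l m K x (S.r w b)) * (1 - fK S U L l m K q w b))

/-- the influence of one choice -/
private noncomputable def gf {l : ℕ} (S : CS V κ) (U : Finset V) (L : V → Finset κ) (m K : ℕ)
    (x : ℝ) (q : V → κ → ℝ) (e : V → Fin l → κ) (T : V → κ → ℝ) (t : V) (i : Fin l) : ℝ :=
  ∑ w ∈ U, ∑ b ∈ L w, if t ∈ U ∧ t ≠ w ∧ S.r t (e t i) = S.r w b then
    bet m K * gw S U L l m K x q T w b else 0

private theorem c3_ident {l : ℕ} (S : CS V κ) (U : Finset V) (L : V → Finset κ) (m K : ℕ)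
    (x : ℝ) (q : V → κ → ℝ) (e : V → Fin l → κ) (T : V → κ → ℝ) (ω : V → Fin l) :
    ∑ w ∈ U, ∑ b ∈ L w, T w b * Psi3 S U L l m K x q (oc e ω) w b =
      (∑ w ∈ U, ∑ b ∈ L w, gw S U L l m K x q T w b) +
        ∑ t, -gf S U L m K x q e T t (ω t) := by
  have h1 : ∀ w b, T w b * Psi3 S U L l m K x q (oc e ω) w b = gw S U L l m K x q T w b -
      ∑ t, if t ∈ U ∧ t ≠ w ∧ S.r t (e t (ω t)) = S.r w b then
        bet m K * gw S U L l m K x q T w b else 0 := by
    intro w b
    have h2 : ((KR S U (oc e ω) w (S.r w b)).card : ℝ) =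
        ∑ t, if t ∈ U ∧ t ≠ w ∧ S.r t (e t (ω t)) = S.r w b then (1 : ℝ) else 0 := by
      rw [sum_boole]
      rfl
    have h3 : (∑ t, if t ∈ U ∧ t ≠ w ∧ S.r t (e t (ω t)) = S.r w b then
        bet m K * gw S U L l m K x q T w b else 0) =
        (KR S U (oc e ω) w (S.r w b)).card * (bet m K * gw S U L l m K x q T w b) := by
      rw [h2, sum_mul]
      refine sum_congr rfl fun t _ => ?_
      rw [ite_mul, one_mul, zero_mul]
    rw [h3]
    unfold Psi3 gw
    ring
  have h4 : ∑ w ∈ U, ∑ b ∈ L w, T w b * Psi3 S U L l m K x q (oc e ω) w b =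
      (∑ w ∈ U, ∑ b ∈ L w, gw S U L l m K x q T w b) - ∑ w ∈ U, ∑ b ∈ L w,
        ∑ t, if t ∈ U ∧ t ≠ w ∧ S.r t (e t (ω t)) = S.r w b then
          bet m K * gw S U L l m K x q T w b else 0 := by
    rw [← sum_sub_distrib]
    refine sum_congr rfl fun w _ => ?_
    rw [← sum_sub_distrib]
    exact sum_congr rfl fun b _ => h1 w b
  have h5 : (∑ w ∈ U, ∑ b ∈ L w,
        ∑ t, if t ∈ U ∧ t ≠ w ∧ S.r t (e t (ω t)) = S.r w b then
          bet m K * gw S U L l m K x q T w b else 0) = ∑ t, gf S U L m K x q e T t (ω t) := by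
    unfold gf
    rw [sum_comm]
    have h6 : ∀ w ∈ U, (∑ b ∈ L w, ∑ t, if t ∈ U ∧ t ≠ w ∧ S.r t (e t (ω t)) = S.r w b then
          bet m K * gw S U L l m K x q T w b else 0) = ∑ t, ∑ b ∈ L w,
          if t ∈ U ∧ t ≠ w ∧ S.r t (e t (ω t)) = S.r w b then
          bet m K * gw S U L l m K x q T w b else 0 := fun w _ => sum_comm
    rw [sum_comm]
    rw [sum_congr rfl h6, sum_comm]
  rw [h4, h5, sum_neg_distrib]
  ring

end

theorem thm_C3 (hB : Pool.TCT.St_BernL) (hE3 : St_E3) : St_C3 := by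
  intro V κ _ _ S U L D l m K x q Lam e T h he hT
  have hne : Nonempty (Fin l) := ⟨⟨0, h.l0⟩⟩
  have hN : (0 : ℝ) < Fintype.card (V → Fin l) := by exact_mod_cast Fintype.card_pos
  have hl := h.lpos
  have hb0 := h.bet_pos
  have hb1 := h.bet_le'
  have hbK := h.betK
  have hK := h.Kpos
  have hLp := h.Lpos
  have hLK := h.LK
  have hcs0 : ∀ v, 0 ≤ cs S U L T v := fun v => sum_nonneg fun p _ => hT p.1 p.2
  -- the sum of squares
  set Q : ℝ := ∑ v, cs S U L T v ^ 2 with hQ
  have hQ0 : 0 ≤ Q := sum_nonneg fun v _ => sq_nonneg _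
  have hsqQ : Q ≤ sq S U L T := by
    unfold sq
    have : 0 ≤ ∑ w ∈ U, rs L T w ^ 2 := sum_nonneg fun w _ => sq_nonneg _
    linarith
  -- the mean
  have hmean : mean (fun ω : V → Fin l => ∑ w ∈ U, ∑ b ∈ L w,
      T w b * Psi3 S U L l m K x q (oc e ω) w b) ≤
      (∑ w ∈ U, ∑ b ∈ L w, T w b * Mt S U L l m K x q w b) + 2 * nm U L T / l := by
    have h1 : mean (fun ω : V → Fin l => ∑ w ∈ U, ∑ b ∈ L w,
        T w b * Psi3 S U L l m K x q (oc e ω) w b) =
        ∑ w ∈ U, ∑ b ∈ L w, T w b * mean (fun ω : V → Fin l => Psi3 S U L l m K x q (oc e ω) w b) := by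
      rw [Mean_sum]
      refine sum_congr rfl fun w _ => ?_
      rw [Mean_sum]
      refine sum_congr rfl fun b _ => ?_
      rw [c3_smul]
    rw [h1]
    have h2 : (∑ w ∈ U, ∑ b ∈ L w, T w b * Mt S U L l m K x q w b) + 2 * nm U L T / l =
        ∑ w ∈ U, ∑ b ∈ L w, T w b * (Mt S U L l m K x q w b + 2 / l) := by
      have h3 : 2 * nm U L T / l = ∑ w ∈ U, ∑ b ∈ L w, T w b * (2 / l) := by
        unfold nm
        rw [mul_div_right_comm, mul_comm, sum_mul]
        refine sum_congr rfl fun w _ => ?_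
        rw [sum_mul]
      rw [h3, ← sum_add_distrib]
      refine sum_congr rfl fun w _ => ?_
      rw [← sum_add_distrib]
      refine sum_congr rfl fun b _ => ?_
      ring
    rw [h2]
    refine sum_le_sum fun w hw => sum_le_sum fun b hb => ?_
    exact mul_le_mul_of_nonneg_left (hE3 V κ S U L D l m K x q Lam e h he w hw b hb) (hT w b)
  rcases hQ0.eq_or_lt with hQz | hQp
  · -- all column sums vanish
    have hz : ∀ w ∈ U, ∀ b ∈ L w, T w b = 0 := by
      intro w hw b hb
      have h1 : cs S U L T (S.r w b) ^ 2 = 0 :=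
        (sum_eq_zero_iff_of_nonneg (fun v _ => sq_nonneg _)).1 hQz.symm _ (mem_univ _)
      have h2 : cs S U L T (S.r w b) = 0 := by
        exact pow_eq_zero_iff (two_ne_zero) |>.1 h1
      unfold cs at h2
      have h3 := (sum_eq_zero_iff_of_nonneg (fun p _ => hT p.1 p.2)).1 h2 (w, b)
        (by simp only [Cv, mem_filter, mem_univ, true_and]; exact ⟨hw, hb, trivial⟩)
      exact h3
    rw [filter_eq_empty_iff.2]
    · rw [card_empty, Nat.cast_zero]
      positivity
    · intro ω _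
      rw [not_lt]
      have h1 : ∑ w ∈ U, ∑ b ∈ L w, T w b * Psi3 S U L l m K x q (oc e ω) w b = 0 :=
        sum_eq_zero fun w hw => sum_eq_zero fun b hb => by rw [hz w hw b hb, zero_mul]
      have h2 : ∑ w ∈ U, ∑ b ∈ L w, T w b * Mt S U L l m K x q w b = 0 :=
        sum_eq_zero fun w hw => sum_eq_zero fun b hb => by rw [hz w hw b hb, zero_mul]
      have h3 : nm U L T = 0 :=
        sum_eq_zero fun w hw => sum_eq_zero fun b hb => hz w hw b hb
      rw [h1, h2, h3]
      simp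
  -- the weights
  have hg : ∀ w ∈ U, ∀ b ∈ L w, 0 ≤ gw S U L l m K x q T w b ∧
      gw S U L l m K x q T w b ≤ T w b := by
    intro w hw b hb
    have h1 := h.eR_nonneg (S.r w b)
    have h2 := h.eR_le (S.r w b)
    have h3 := h.fK_nonneg hw hb
    have h4 := h.fK_le hw hb
    have h5 : 0 ≤ 1 - bet m K := by linarith
    have h6 : 0 ≤ 1 - eR S U L l m K x (S.r w b) := by linarith
    have h7 : 0 ≤ 1 - fK S U L l m K q w b := by linarith
    have h8 : (1 - bet m K) * (1 - eR S U L l m K x (S.r w b)) * (1 - fK S U L l m K q w b) ≤ 1 :=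
      mul_le_one₀ (mul_le_one₀ (by linarith) h6 (by linarith)) h7 (by linarith)
    unfold gw
    exact ⟨mul_nonneg (hT w b) (mul_nonneg (mul_nonneg h5 h6) h7),
      mul_le_of_le_one_right (hT w b) h8⟩
  have hf0 : ∀ t i, 0 ≤ gf S U L m K x q e T t i := by
    intro t i
    refine sum_nonneg fun w hw => sum_nonneg fun b hb => ?_
    split_ifs
    · exact mul_nonneg hb0.le (hg w hw b hb).1
    · exact le_rfl
  have hfz : ∀ t, t ∉ U → ∀ i, gf S U L m K x q e T t i = 0 := by
    intro t ht i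
    exact sum_eq_zero fun w _ => sum_eq_zero fun b _ => if_neg fun hh => ht hh.1
  have hf1 : ∀ t i, gf S U L m K x q e T t i ≤ bet m K * cs S U L T (S.r t (e t i)) := by
    intro t i
    rw [c3_cs, mul_sum]
    refine sum_le_sum fun w hw => ?_
    rw [mul_sum]
    refine sum_le_sum fun b hb => ?_
    by_cases h1 : S.r w b = S.r t (e t i)
    · rw [if_pos h1]
      split_ifs
      · exact mul_le_mul_of_nonneg_left (hg w hw b hb).2 hb0.le
      · exact mul_nonneg hb0.le (hT w b)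
    · rw [if_neg h1, if_neg fun hh => h1 hh.2.2.symm, mul_zero]
  have hcsQ : ∀ v, cs S U L T v ≤ Real.sqrt Q := by
    intro v
    apply Real.le_sqrt_of_sq_le
    exact single_le_sum (f := fun v => cs S U L T v ^ 2) (fun v _ => sq_nonneg _) (mem_univ v)
  have hsQ : 0 < Real.sqrt Q := Real.sqrt_pos.2 hQp
  set W : ℝ := bet m K ^ 2 * ((2 + Lam) * Q) with hW
  have key := hB V (Fin l) (fun t i => -gf S U L m K x q e T t i) (bet m K * Real.sqrt Q) W Lam
    (mul_pos hb0 hsQ) hLp ?_ ?_ ?_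
  · refine le_trans ?_ key
    have hle : ((univ.filter (fun ω : V → Fin l =>
        (∑ w ∈ U, ∑ b ∈ L w, T w b * Mt S U L l m K x q w b) + 2 * nm U L T / l +
          Real.sqrt (sq S U L T * Lam) <
        ∑ w ∈ U, ∑ b ∈ L w, T w b * Psi3 S U L l m K x q (oc e ω) w b)).card) ≤
        (univ.filter (fun ω : V → Fin l =>
          (∑ t, ∑ a, -gf S U L m K x q e T t a) / Fintype.card (Fin l) +
            3 * Real.sqrt (W * Lam) ≤ ∑ t, -gf S U L m K x q e T t (ω t))).card := by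
      apply card_le_card
      intro ω hω
      simp only [mem_filter, mem_univ, true_and] at hω ⊢
      have h1 : mean (fun ω : V → Fin l => ∑ w ∈ U, ∑ b ∈ L w,
          T w b * Psi3 S U L l m K x q (oc e ω) w b) =
          (∑ w ∈ U, ∑ b ∈ L w, gw S U L l m K x q T w b) +
          (∑ t, ∑ a, -gf S U L m K x q e T t a) / Fintype.card (Fin l) := by
        rw [funext fun ω => c3_ident S U L m K x q e T ω, c3_lin hN,
          c3_coord (fun t i => -gf S U L m K x q e T t i)]
      rw [h1] at hmean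
      rw [c3_ident] at hω
      have h2 : 3 * Real.sqrt (W * Lam) ≤ Real.sqrt (sq S U L T * Lam) := by
        have h3 : 3 * Real.sqrt (W * Lam) = Real.sqrt (9 * (W * Lam)) := by
          rw [Real.sqrt_mul (show (0 : ℝ) ≤ 9 by norm_num) (W * Lam),
            show (9 : ℝ) = 3 ^ 2 by norm_num, Real.sqrt_sq (show (0 : ℝ) ≤ 3 by norm_num)]
        rw [h3]
        apply Real.sqrt_le_sqrt
        have h4 : 9 * (bet m K ^ 2 * (2 + Lam)) ≤ 1 := by
          have h5 : 2 + Lam ≤ (K : ℝ) ^ 2 := by nlinarith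
          have h6 : bet m K ^ 2 * (2 + Lam) ≤ bet m K ^ 2 * (K : ℝ) ^ 2 :=
            mul_le_mul_of_nonneg_left h5 (sq_nonneg _)
          have h7 : bet m K ^ 2 * (K : ℝ) ^ 2 = ((K : ℝ) * bet m K) ^ 2 := by ring
          have h8 : ((K : ℝ) * bet m K) ^ 2 ≤ (1 / 8) ^ 2 :=
            pow_le_pow_left₀ (mul_nonneg (by linarith) hb0.le) hbK 2
          norm_num at h8
          linarith
        have h9 : 9 * (W * Lam) = 9 * (bet m K ^ 2 * (2 + Lam)) * (Q * Lam) := by
          rw [hW]; ring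
        rw [h9]
        have h10 : 0 ≤ Q * Lam := mul_nonneg hQ0 hLp.le
        calc 9 * (bet m K ^ 2 * (2 + Lam)) * (Q * Lam) ≤ 1 * (Q * Lam) :=
              mul_le_mul_of_nonneg_right h4 h10
          _ = Q * Lam := one_mul _
          _ ≤ sq S U L T * Lam := mul_le_mul_of_nonneg_right hsqQ hLp.le
      linarith
    exact_mod_cast hle
  · rw [mul_pow, Real.sq_sqrt hQ0, hW]
    have h1 : 0 ≤ bet m K ^ 2 * Q := mul_nonneg (sq_nonneg _) hQ0
    nlinarith
  · intro t i
    rw [abs_neg, abs_of_nonneg (hf0 t i)]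
    exact (hf1 t i).trans (mul_le_mul_of_nonneg_left (hcsQ _) hb0.le)
  · have h1 : (∑ t, ∑ a, (-gf S U L m K x q e T t a) ^ 2) ≤
        ∑ t ∈ U, ∑ b ∈ L t, bet m K ^ 2 * cs S U L T (S.r t b) ^ 2 := by
      have h2 : (∑ t, ∑ a, (-gf S U L m K x q e T t a) ^ 2) =
          ∑ t ∈ U, ∑ a, (-gf S U L m K x q e T t a) ^ 2 := by
        symm
        apply sum_subset (subset_univ U)
        intro t _ ht
        exact sum_eq_zero fun i _ => by rw [hfz t ht i]; simp
      rw [h2]
      refine sum_le_sum fun t ht => ?_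
      rw [← c3_enu he ht (fun b => bet m K ^ 2 * cs S U L T (S.r t b) ^ 2)]
      refine sum_le_sum fun i _ => ?_
      rw [neg_sq, ← mul_pow]
      exact pow_le_pow_left₀ (hf0 t i) (hf1 t i) 2
    refine h1.trans ?_
    rw [c3_swap S U L (fun v => bet m K ^ 2 * cs S U L T v ^ 2), Fintype.card_fin]
    have h3 : ∑ v, ((Cv S U L v).card : ℝ) * (bet m K ^ 2 * cs S U L T v ^ 2) ≤
        ∑ v, (2 * (l : ℝ)) * (bet m K ^ 2 * cs S U L T v ^ 2) :=
      sum_le_sum fun v _ => mul_le_mul_of_nonneg_right (h.Cv2 v)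
        (mul_nonneg (sq_nonneg _) (sq_nonneg _))
    refine h3.trans ?_
    rw [← mul_sum, ← mul_sum, ← hQ, hW]
    have h4 : 0 ≤ (l : ℝ) * (bet m K ^ 2 * Q) := by positivity
    nlinarith

end Pool.TCU
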