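import Pool.Agent.Helper93.TCU.SStmt3

/-!
# SN1 (helper38)
-/

set_option autoImplicit false

namespace Pool.TCU

open Pool.TC Pool.TCM Pool.TCS Pool.TCV Finset
open scoped Classical

private theorem sn1_bet {X : ℕ} (hX : 10 ^ 20 ≤ X) :
    3 / (32 * (X : ℝ) ^ 3) ≤ bet (8 * X ^ 3) (X ^ 3) ∧
      bet (8 * X ^ 3) (X ^ 3) ≤ 1 / (8 * (X : ℝ) ^ 3) := by
  have hXr : (10 : ℝ) ^ 20 ≤ X := by exact_mod_cast hX
  have hX0 : (0 : ℝ) < X := lt_of_lt_of_le (by norm_num) hXr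
  have hY1 : (1 : ℝ) ≤ (X : ℝ) ^ 3 := one_le_pow₀ (by linarith)
  have hY : (0 : ℝ) < (X : ℝ) ^ 3 := by linarith
  unfold bet
  push_cast
  generalize hYd : (X : ℝ) ^ 3 = Y at *
  have h1 : (0 : ℝ) < 1 / (8 * Y) := by positivity
  have h2 : 1 / (8 * Y) ≤ 1 / 8 := by
    rw [div_le_div_iff₀ (by positivity) (by norm_num)]
    linarith
  constructor
  · have h3 := one_add_mul_le_pow (show (-2 : ℝ) ≤ -(1 / (8 * Y)) by linarith) (2 * X ^ 3)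
    have h4 : 1 + ((2 * X ^ 3 : ℕ) : ℝ) * -(1 / (8 * Y)) = 3 / 4 := by
      push_cast
      rw [hYd]
      field_simp
      norm_num
    rw [h4, ← sub_eq_add_neg] at h3
    calc 3 / (32 * Y) = 1 / (8 * Y) * (3 / 4) := by field_simp; norm_num
      _ ≤ 1 / (8 * Y) * (1 - 1 / (8 * Y)) ^ (2 * X ^ 3) := by gcongr
  · exact mul_le_of_le_one_right h1.le (pow_le_one₀ (by linarith) (by linarith))

private theorem sn1_pow {X : ℕ} (hX : 10 ^ 20 ≤ X) :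
    (X : ℝ) ^ 1000002 ≤ 2 ^ (X ^ 3) := by
  have h1 : X ≤ 2 ^ X := Nat.lt_two_pow_self.le
  have h2 : X ^ 1000002 ≤ 2 ^ (X ^ 3) := by
    calc X ^ 1000002 ≤ X ^ (X ^ 2) := by
          apply Nat.pow_le_pow_right (by omega)
          calc 1000002 ≤ 10 ^ 20 := by norm_num
            _ ≤ X := hX
            _ ≤ X ^ 2 := Nat.le_self_pow (by norm_num) X
      _ ≤ (2 ^ X) ^ (X ^ 2) := Nat.pow_le_pow_left h1 _
      _ = 2 ^ (X ^ 3) := by rw [← pow_mul]; congr 1; ring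
  exact_mod_cast h2

private theorem sn1_er {X : ℕ} (hX : 10 ^ 20 ≤ X) {D : ℝ} (hD : (X : ℝ) ^ 4000000 ≤ D) (y : ℝ)
    (hy : D ≤ 3 * (X : ℝ) ^ 520000 * y) :
    Er (X ^ 3) ((X : ℝ) ^ 3) y * (X : ℝ) ^ 1000000 ≤ 1 := by
  have hXr : (10 : ℝ) ^ 20 ≤ X := by exact_mod_cast hX
  have hX0 : (0 : ℝ) < X := lt_of_lt_of_le (by norm_num) hXr
  have hX1 : (1 : ℝ) ≤ X := le_trans (by norm_num) hXr
  have hA : (0 : ℝ) < (X : ℝ) ^ 520000 := by positivity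
  have hD0 : (0 : ℝ) < D := lt_of_lt_of_le (by positivity) hD
  have hy0 : 0 < y := by
    by_contra hcon
    rw [not_lt] at hcon
    have : 3 * (X : ℝ) ^ 520000 * y ≤ 0 := mul_nonpos_of_nonneg_of_nonpos (by positivity) hcon
    linarith
  -- first term
  have h1 : 2 ^ 18 * (1 / 2 : ℝ) ^ (X ^ 3) * (X : ℝ) ^ 1000000 ≤ 1 / 2 := by
    have h2 := sn1_pow hX
    rw [one_div_pow, mul_one_div, div_mul_eq_mul_div, div_le_div_iff₀ (by positivity)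
      (by norm_num)]
    have h3 : (X : ℝ) ^ 1000002 = (X : ℝ) ^ 1000000 * (X : ℝ) ^ 2 := by
      rw [← pow_add]
    rw [h3] at h2
    have h4 : (2 : ℝ) ^ 19 ≤ (X : ℝ) ^ 2 := by
      calc (2 : ℝ) ^ 19 ≤ (10 : ℝ) ^ 20 := by norm_num
        _ ≤ (X : ℝ) := hXr
        _ ≤ (X : ℝ) ^ 2 := le_self_pow₀ hX1 (by norm_num)
    have h5 : (0 : ℝ) ≤ (X : ℝ) ^ 1000000 := by positivity
    calc 2 ^ 18 * (X : ℝ) ^ 1000000 * 2 = (X : ℝ) ^ 1000000 * 2 ^ 19 := by ring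
      _ ≤ (X : ℝ) ^ 1000000 * (X : ℝ) ^ 2 := mul_le_mul_of_nonneg_left h4 h5
      _ ≤ 2 ^ (X ^ 3) := h2
      _ = 1 * 2 ^ (X ^ 3) := (one_mul _).symm
  -- second term
  have h6 : Real.sqrt ((X : ℝ) ^ 3 / y) ≤ 1 / (256 * (X : ℝ) ^ 1000006) := by
    rw [Real.sqrt_le_left (by positivity), one_div_pow, div_le_div_iff₀ hy0 (by positivity)]
    have h7 : (256 * (X : ℝ) ^ 1000006) ^ 2 = 65536 * (X : ℝ) ^ 2000012 := by
      rw [mul_pow, ← pow_mul]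
      norm_num
    rw [h7, one_mul]
    have h8 : (X : ℝ) ^ 3 * (65536 * (X : ℝ) ^ 2000012) * (3 * (X : ℝ) ^ 520000) ≤ D := by
      have h9 : (X : ℝ) ^ 3 * (65536 * (X : ℝ) ^ 2000012) * (3 * (X : ℝ) ^ 520000) =
          (3 * 65536) * (X : ℝ) ^ 2520015 := by
        have h10 : (X : ℝ) ^ 2520015 = (X : ℝ) ^ 3 * (X : ℝ) ^ 2000012 * (X : ℝ) ^ 520000 := by
          rw [← pow_add, ← pow_add]
        rw [h10]
        ring
      rw [h9]
      calc (3 * 65536) * (X : ℝ) ^ 2520015 ≤ X * (X : ℝ) ^ 2520015 := by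
            gcongr
            linarith
        _ = (X : ℝ) ^ 2520016 := by rw [← pow_succ']
        _ ≤ (X : ℝ) ^ 4000000 := pow_le_pow_right₀ hX1 (by norm_num)
        _ ≤ D := hD
    have h11 : (X : ℝ) ^ 3 * (65536 * (X : ℝ) ^ 2000012) * (3 * (X : ℝ) ^ 520000) ≤
        y * (3 * (X : ℝ) ^ 520000) := by linarith
    exact le_of_mul_le_mul_right h11 (by positivity)
  have h12 : 128 * (((X ^ 3 : ℕ) : ℝ)) ^ 2 * Real.sqrt ((X : ℝ) ^ 3 / y) * (X : ℝ) ^ 1000000 ≤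
      1 / 2 := by
    have h13 : 128 * (((X ^ 3 : ℕ) : ℝ)) ^ 2 * Real.sqrt ((X : ℝ) ^ 3 / y) * (X : ℝ) ^ 1000000 =
        128 * ((X : ℝ) ^ 6 * (X : ℝ) ^ 1000000) * Real.sqrt ((X : ℝ) ^ 3 / y) := by
      push_cast
      ring
    rw [h13, ← pow_add]
    calc 128 * (X : ℝ) ^ (6 + 1000000) * Real.sqrt ((X : ℝ) ^ 3 / y)
        ≤ 128 * (X : ℝ) ^ (6 + 1000000) * (1 / (256 * (X : ℝ) ^ 1000006)) := by gcongr
      _ = 1 / 2 := by
        rw [show 6 + 1000000 = 1000006 by norm_num]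
        have : (X : ℝ) ^ 1000006 ≠ 0 := by positivity
        generalize (X : ℝ) ^ 1000006 = Z at *
        field_simp
        norm_num
  unfold Er
  rw [add_mul]
  linarith

private theorem sn1_aux {u v : ℕ} (h : v ≤ u) (h1 : 1 ≤ u) : 4 * (v + 1) ≤ u * 8 := by
  omega

private theorem sn1_quad {X : ℕ} (hX : 10 ^ 20 ≤ X) : 48 * X + 147 ≤ X ^ 3 := by
  have h1 : 49 * X ≤ X * X := Nat.mul_le_mul_right X (le_trans (by norm_num) hX)
  have h2 : 147 ≤ X := le_trans (by norm_num) hX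
  have h3 : X * X * 1 ≤ X * X * X := Nat.mul_le_mul_left (X * X) (le_trans (by norm_num) hX)
  have h4 : X ^ 3 = X * X * X := by ring
  rw [h4]
  linarith

private theorem sn1_exp {X D : ℕ} (hX : 10 ^ 20 ≤ X) (hD : D < 2 ^ (X + 1)) :
    4 * Real.exp (-(X : ℝ) ^ 3) * ((3 * (((2 * D + 1) ^ 2 : ℕ) : ℝ) + 2) ^ 24 + 1) ≤ 1 := by
  have h1 : Real.exp (-(X : ℝ) ^ 3) ≤ 1 / 2 ^ (X ^ 3) := by
    rw [Real.exp_neg, ← one_div]
    apply one_div_le_one_div_of_le (by positivity)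
    have h2 : Real.exp ((X : ℝ) ^ 3) = Real.exp 1 ^ (X ^ 3) := by
      rw [← Real.exp_nat_mul]
      congr 1
      push_cast
      ring
    rw [h2]
    exact pow_le_pow_left₀ (by norm_num) (by linarith [Real.exp_one_gt_d9]) _
  have h3 : 4 * ((3 * (2 * D + 1) ^ 2 + 2) ^ 24 + 1) ≤ 2 ^ (X ^ 3) := by
    have h4 : 2 * D + 1 ≤ 2 ^ (X + 2) := by
      have : 2 ^ (X + 2) = 2 * 2 ^ (X + 1) := by ring
      omega
    have h5 : 3 * (2 * D + 1) ^ 2 + 2 ≤ 2 ^ (2 * X + 6) := by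
      have h6 : (2 * D + 1) ^ 2 ≤ (2 ^ (X + 2)) ^ 2 := Nat.pow_le_pow_left h4 2
      have h7 : (2 ^ (X + 2)) ^ 2 = 2 ^ (2 * X + 4) := by
        rw [← pow_mul]
        congr 1
        ring
      have h8 : 2 ^ (2 * X + 6) = 4 * 2 ^ (2 * X + 4) := by ring
      have h9 : 2 ≤ 2 ^ (2 * X + 4) := by
        calc 2 = 2 ^ 1 := rfl
          _ ≤ 2 ^ (2 * X + 4) := Nat.pow_le_pow_right (by norm_num) (by omega)
      rw [h7] at h6
      omega
    have h10 : (3 * (2 * D + 1) ^ 2 + 2) ^ 24 ≤ 2 ^ (48 * X + 144) := by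
      calc (3 * (2 * D + 1) ^ 2 + 2) ^ 24 ≤ (2 ^ (2 * X + 6)) ^ 24 := Nat.pow_le_pow_left h5 24
        _ = 2 ^ (48 * X + 144) := by
          rw [← pow_mul]
          congr 1
          ring
    have h11 : 1 ≤ 2 ^ (48 * X + 144) := Nat.one_le_two_pow
    have h12 : 4 * ((3 * (2 * D + 1) ^ 2 + 2) ^ 24 + 1) ≤ 2 ^ (48 * X + 147) := by
      have h13 : 2 ^ (48 * X + 147) = 2 ^ (48 * X + 144) * 8 := by
        rw [show 48 * X + 147 = (48 * X + 144) + 3 from rfl, pow_add]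
        norm_num
      rw [h13]
      exact sn1_aux h10 h11
    exact h12.trans (Nat.pow_le_pow_right (by norm_num) (sn1_quad hX))
  have h14 : 4 * ((3 * (((2 * D + 1) ^ 2 : ℕ) : ℝ) + 2) ^ 24 + 1) ≤ 2 ^ (X ^ 3) := by
    exact_mod_cast h3
  have h15 : (0 : ℝ) < 2 ^ (X ^ 3) := by positivity
  calc 4 * Real.exp (-(X : ℝ) ^ 3) * ((3 * (((2 * D + 1) ^ 2 : ℕ) : ℝ) + 2) ^ 24 + 1)
      = Real.exp (-(X : ℝ) ^ 3) * (4 * ((3 * (((2 * D + 1) ^ 2 : ℕ) : ℝ) + 2) ^ 24 + 1)) := by ring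
    _ ≤ 1 / 2 ^ (X ^ 3) * 2 ^ (X ^ 3) := by gcongr
    _ = 1 := by field_simp

theorem thm_SN1 : St_SN1 := by
  intro P j0 ell x N hj hell hx
  have hX := N.X0
  have hXr : (10 : ℝ) ^ 20 ≤ P.X := by exact_mod_cast hX
  have hX0 : (0 : ℝ) < P.X := lt_of_lt_of_le (by norm_num) hXr
  have hX1 : (1 : ℝ) ≤ P.X := le_trans (by norm_num) hXr
  obtain ⟨hb1, hb2⟩ := sn1_bet hX
  have hsb : sb P = bet (8 * P.X ^ 3) (P.X ^ 3) := by
    unfold sb
    rw [N.kn]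
  rw [← hsb] at hb1 hb2
  have hr1 := N.r1
  have hr2 := N.r2
  have hbb : bet (8 * P.kn) P.kn = sb P := rfl
  rw [hbb] at hr1 hr2
  have hb0 : 0 < sb P := lt_of_lt_of_le (by positivity) hb1
  have hb11 : 1 / (11 * (P.X : ℝ) ^ 3) ≤ sb P := by
    refine le_trans ?_ hb1
    rw [div_le_div_iff₀ (by positivity) (by positivity)]
    have : (0 : ℝ) < (P.X : ℝ) ^ 3 := by positivity
    linarith
  have hdel := N.delta
  have hd0 : 0 < P.delta := by rw [hdel]; positivity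
  have hpa : (P.pa : ℝ) = (P.X : ℝ) ^ 5 := by rw [N.pa]; push_cast; ring
  have hthp := N.thp
  rw [hpa] at hthp
  have hth1 : 1 / (P.X : ℝ) ^ 4912 ≤ P.thp / 2 := by
    have h1 : (1 / (11 * (P.X : ℝ) ^ 3)) ^ 2 ≤ sb P ^ 2 := pow_le_pow_left₀ (by positivity) hb11 2
    have h2 : (1 / (11 * (P.X : ℝ) ^ 3)) ^ 2 * P.delta / 160 ≤ (1 / 2) ^ P.r := by
      refine le_trans ?_ hr1.le
      gcongr
    have h3 : (1 / (11 * (P.X : ℝ) ^ 3)) ^ 2 * P.delta / 160 / (4 * (P.X : ℝ) ^ 5) / 2 ≤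
        P.thp / 2 := by
      rw [hthp]
      gcongr
    refine le_trans ?_ h3
    have h4 : (1 / (11 * (P.X : ℝ) ^ 3)) ^ 2 * P.delta / 160 / (4 * (P.X : ℝ) ^ 5) / 2 =
        1 / (154880 * (P.X : ℝ) ^ 4911) := by
      rw [hdel]
      have : (P.X : ℝ) ^ 4911 = (P.X : ℝ) ^ 6 * (P.X : ℝ) ^ 5 * (P.X : ℝ) ^ 4900 := by
        rw [← pow_add, ← pow_add]
      rw [this]
      have h6 : (P.X : ℝ) ^ 4900 ≠ 0 := by positivity
      generalize (P.X : ℝ) ^ 4900 = Z at *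
      field_simp
      norm_num
    rw [h4]
    apply one_div_le_one_div_of_le (by positivity)
    calc 154880 * (P.X : ℝ) ^ 4911 ≤ P.X * (P.X : ℝ) ^ 4911 := by
          gcongr
          linarith
      _ = (P.X : ℝ) ^ 4912 := by rw [← pow_succ']
  have hxi : P.xi ≤ 1 / (P.X : ℝ) ^ 4882 := by
    rw [N.xi, N.pmax, hdel, N.theta, N.Lam]
    have h1 : 2000 * (P.X : ℝ) ^ 3 * (103 * (1 / (P.X : ℝ) ^ 4900) / (1 / (P.X : ℝ) ^ 14)) =
        206000 * (P.X : ℝ) ^ 17 / (P.X : ℝ) ^ 4900 := by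
      have h6 : (P.X : ℝ) ^ 4900 ≠ 0 := by positivity
      generalize (P.X : ℝ) ^ 4900 = Z at *
      field_simp
      ring
    rw [h1, div_le_div_iff₀ (by positivity) (by positivity), one_mul]
    calc 206000 * (P.X : ℝ) ^ 17 * (P.X : ℝ) ^ 4882
        ≤ P.X * (P.X : ℝ) ^ 17 * (P.X : ℝ) ^ 4882 := by
          gcongr
          linarith
      _ = (P.X : ℝ) ^ 4900 := by
          rw [← pow_succ', ← pow_add]
  have hxi0 : 0 ≤ P.xi := by
    rw [N.xi, N.pmax, hdel, N.theta, N.Lam]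
    positivity
  have hsk : sk1 P ≤ 1 / (P.X : ℝ) ^ 4878 := by
    unfold sk1
    have h1 : 1 ≤ 11 * (P.X : ℝ) ^ 3 * sb P := by
      rw [div_le_iff₀ (by positivity)] at hb11
      linarith
    rw [div_le_iff₀ hb0]
    have h2 : 20 * P.xi ≤ 20 * (1 / (P.X : ℝ) ^ 4882) * (11 * (P.X : ℝ) ^ 3 * sb P) := by
      calc 20 * P.xi = 20 * P.xi * 1 := (mul_one _).symm
        _ ≤ 20 * (1 / (P.X : ℝ) ^ 4882) * (11 * (P.X : ℝ) ^ 3 * sb P) := by gcongr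
    refine h2.trans ?_
    have h3 : (P.X : ℝ) ^ 4882 = (P.X : ℝ) ^ 4878 * (P.X : ℝ) ^ 4 := by rw [← pow_add]
    rw [h3]
    have h6 : 0 < (P.X : ℝ) ^ 4878 := by positivity
    have h7 : 20 * (1 / ((P.X : ℝ) ^ 4878 * (P.X : ℝ) ^ 4)) * (11 * (P.X : ℝ) ^ 3 * sb P) =
        1 / (P.X : ℝ) ^ 4878 * sb P * (220 / P.X) := by
      generalize (P.X : ℝ) ^ 4878 = Z at *
      field_simp
      norm_num
    rw [h7]
    have h8 : 220 / (P.X : ℝ) ≤ 1 := by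
      rw [div_le_one hX0]
      linarith
    exact mul_le_of_le_one_right (by positivity) h8
  have hsk0 : 0 ≤ sk1 P := by
    unfold sk1
    positivity
  have hD1 := N.XD
  have hX4 : (P.X : ℝ) ≤ (P.X : ℝ) ^ 1000000 := le_self_pow₀ hX1 (by norm_num)
  have hD0 : (0 : ℝ) < P.D := lt_of_lt_of_le (by positivity) hD1
  have hsq : (P.X : ℝ) ^ 1000010 ≤ Real.sqrt P.D := by
    apply Real.le_sqrt_of_sq_le
    rw [← pow_mul]
    refine le_trans (pow_le_pow_right₀ hX1 ?_) hD1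
    norm_num
  have hsq0 : 0 < Real.sqrt P.D := lt_of_lt_of_le (by positivity) hsq
  have hnz1 : P.nz * (P.X : ℝ) ^ 1000000 ≤ P.D := by
    rw [N.nz]
    calc (P.X : ℝ) ^ 10 * Real.sqrt P.D * (P.X : ℝ) ^ 1000000
        = ((P.X : ℝ) ^ 10 * (P.X : ℝ) ^ 1000000) * Real.sqrt P.D := by ring
      _ = (P.X : ℝ) ^ 1000010 * Real.sqrt P.D := by rw [← pow_add]
      _ ≤ Real.sqrt P.D * Real.sqrt P.D := by gcongr
      _ = P.D := Real.mul_self_sqrt hD0.le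
  have hnz : 1 ≤ P.nz := by
    rw [N.nz]
    have h1 : (1 : ℝ) ≤ (P.X : ℝ) ^ 10 := one_le_pow₀ hX1
    have h2 : (1 : ℝ) ≤ Real.sqrt P.D := le_trans (one_le_pow₀ hX1) hsq
    nlinarith
  have hnz20 : P.nz * 10 ^ 20 ≤ P.D := by
    refine le_trans ?_ hnz1
    gcongr
    linarith
  have h7 : (1 / 2 : ℝ) ^ P.r ≤ 1 / 128 := by
    calc (1 / 2 : ℝ) ^ P.r ≤ (1 / 2) ^ 7 := pow_le_pow_of_le_one (by norm_num) (by norm_num) N.r7
      _ = 1 / 128 := by norm_num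
  have hj' : (j0 : ℝ) ≤ 1 / 128 * ((P.D : ℝ) + 1) := by
    refine hj.trans ?_
    gcongr
  have hj0 : (0 : ℝ) ≤ j0 := Nat.cast_nonneg _
  have hval : 0 ≤ ((P.D : ℝ) + 1 - j0) / 2 - 4 * P.nz := by linarith
  have hfl := Nat.floor_le hval
  have hfl2 := Nat.lt_floor_add_one (((P.D : ℝ) + 1 - j0) / 2 - 4 * P.nz)
  rw [← hell] at hfl hfl2
  refine ⟨hXr, hb11, hb2, hr2, hth1, ?_, ?_, ?_, ?_, ?_, ?_, hnz1, hD1, ?_, ?_⟩
  · -- th2
    have h1 : 2000 * P.xi * sk1 P ≤ 2000 * (1 / (P.X : ℝ) ^ 4882) * (1 / (P.X : ℝ) ^ 4878) := by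
      gcongr
    have h2 : 2000 * (1 / (P.X : ℝ) ^ 4882) * (1 / (P.X : ℝ) ^ 4878) ≤
        2 * (1 / (P.X : ℝ) ^ 4912) := by
      have h3 : 2000 * (1 / (P.X : ℝ) ^ 4882) * (1 / (P.X : ℝ) ^ 4878) =
          2000 / (P.X : ℝ) ^ 9760 := by
        have : (P.X : ℝ) ^ 9760 = (P.X : ℝ) ^ 4882 * (P.X : ℝ) ^ 4878 := by rw [← pow_add]
        rw [this]
        have h6 : (P.X : ℝ) ^ 4882 ≠ 0 := by positivity
        have h7 : (P.X : ℝ) ^ 4878 ≠ 0 := by positivity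
        generalize (P.X : ℝ) ^ 4882 = Z at *
        generalize (P.X : ℝ) ^ 4878 = Z' at *
        field_simp
      rw [h3, mul_one_div, div_le_div_iff₀ (by positivity) (by positivity)]
      calc 2000 * (P.X : ℝ) ^ 4912 ≤ P.X * (P.X : ℝ) ^ 4912 := by
            gcongr
            linarith
        _ = (P.X : ℝ) ^ 4913 := by rw [← pow_succ']
        _ ≤ (P.X : ℝ) ^ 9760 := pow_le_pow_right₀ hX1 (by norm_num)
        _ ≤ 2 * (P.X : ℝ) ^ 9760 := by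
          have : (0 : ℝ) ≤ (P.X : ℝ) ^ 9760 := by positivity
          linarith
    linarith
  · -- th3
    rw [hthp]
    have h1 : (1 : ℝ) ≤ (P.X : ℝ) ^ 5 := one_le_pow₀ hX1
    rw [div_le_div_iff₀ (by positivity) (by norm_num)]
    have h2 : 0 ≤ sb P ^ 2 * P.delta := by positivity
    nlinarith
  · -- l1
    linarith
  · -- l2
    linarith
  · -- x1
    rw [hx]
    linarith
  · -- x2
    rw [hx]
    linarith
  · -- er
    intro y hy
    rw [N.kn, N.Lam]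
    exact sn1_er hX hD1 y hy
  · -- hexp
    rw [N.Lam]
    apply sn1_exp hX
    have := Nat.lt_pow_succ_log_self (show 1 < 2 by norm_num) P.D
    rw [← N.XL] at this
    exact this

end Pool.TCU
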